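import Pool.Agent.W192.CM.Parts

/-!
# Project CM, part MAINP: the main part
-/

set_option autoImplicit false

namespace Pool.Agent.W588.CM

open Finset
open Pool.Agent.W192.CM

/-- the norm -/
noncomputable abbrev nq {R : Subring ℂ} (α : R) : ℝ := Complex.normSq (α : ℂ)

section basics

variable {R : Subring ℂ} {ω : ℂ}

theorem nq_mul (α β : R) : nq (α * β) = nq α * nq β := by
  show Complex.normSq ((α : ℂ) * (β : ℂ)) = _
  rw [Complex.normSq_mul]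

theorem nq_nonneg (α : R) : 0 ≤ nq α := Complex.normSq_nonneg _

theorem nq_eq_zero {α : R} : nq α = 0 ↔ α = 0 := by
  rw [Complex.normSq_eq_zero]
  exact ZeroMemClass.coe_eq_zero

theorem one_le_nq (h1 : C_BASIC) (hR : CMRing R ω) {α : R} (hα : α ≠ 0) : 1 ≤ nq α := by
  obtain ⟨n, hn⟩ := (h1 R ω hR).1 α
  have h2 : nq α ≠ 0 := fun h => hα (nq_eq_zero.1 h)
  have hn' : nq α = n := hn
  rw [hn'] at h2 ⊢
  have h3 : n ≠ 0 := fun h => h2 (by rw [h]; simp)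
  exact_mod_cast Nat.one_le_iff_ne_zero.2 h3

theorem norm_coe (α : R) : ‖(α : ℂ)‖ = (nq α) ^ (1 / 2 : ℝ) := by
  show ‖(α : ℂ)‖ = (Complex.normSq (α : ℂ)) ^ (1 / 2 : ℝ)
  rw [← Real.sqrt_eq_rpow, Complex.normSq_eq_norm_sq, Real.sqrt_sq (norm_nonneg _)]

/-- lattice points in a disc -/
theorem lat (h2 : C_LAT) (hR : CMRing R ω) : ∃ C : ℝ, 0 < C ∧ ∀ y : ℝ, 0 ≤ y →
    {α : R | nq α ≤ y}.Finite ∧ (Set.ncard {α : R | nq α ≤ y} : ℝ) ≤ C * (1 + y) := by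
  obtain ⟨C, hC, h⟩ := h2 R ω hR
  refine ⟨C, hC, fun y hy => ?_⟩
  have h3 := h 1 one_ne_zero 0 y hy
  have e : {α : R | Complex.normSq (α : ℂ) ≤ y ∧ (1 : R) ∣ α - 0} = {α : R | nq α ≤ y} := by
    ext α
    simp
  rw [e] at h3
  simpa using h3

theorem summ (h1 : C_BASIC) (h2 : C_LAT) (hR : CMRing R ω) (F : ℝ → ℝ) (hF0 : ∀ x, 0 ≤ F x)
    (hF : Summable (fun n : ℕ => (1 + (n : ℝ)) * F n)) : Summable (fun α : R => F (nq α)) := by
  classical
  obtain ⟨C, hC, hlat⟩ := lat h2 hR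
  choose n hn using (h1 R ω hR).1
  refine summable_of_sum_le (c := C * ∑' k : ℕ, (1 + (k : ℝ)) * F k) (fun α => hF0 _) fun u => ?_
  rw [← Finset.sum_fiberwise_of_maps_to (g := n) (t := u.image n)
    (fun α hα => mem_image_of_mem _ hα)]
  have h3 : ∀ k ∈ u.image n, ∑ α ∈ u.filter (fun α => n α = k), F (nq α) ≤
      C * ((1 + (k : ℝ)) * F k) := by
    intro k _
    have h4 : ∑ α ∈ u.filter (fun α => n α = k), F (nq α) =
        ((u.filter (fun α => n α = k)).card : ℝ) * F k := by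
      rw [← nsmul_eq_mul, ← sum_const]
      refine sum_congr rfl fun α hα => ?_
      rw [mem_filter] at hα
      show F (Complex.normSq (α : ℂ)) = F k
      rw [hn α, hα.2]
    rw [h4]
    obtain ⟨hfin, hcard⟩ := hlat k (Nat.cast_nonneg k)
    have h5 : ((u.filter (fun α => n α = k)).card : ℝ) ≤ C * (1 + k) := by
      refine le_trans ?_ hcard
      have h6 : ((u.filter (fun α => n α = k) : Finset R) : Set R) ⊆ {α : R | nq α ≤ k} := by
        intro α hα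
        have h7 := (mem_filter.1 (mem_coe.1 hα)).2
        show Complex.normSq (α : ℂ) ≤ k
        rw [hn α, h7]
      have h8 := Set.ncard_le_ncard h6 hfin
      rw [Set.ncard_coe_finset] at h8
      exact_mod_cast h8
    calc _ ≤ C * (1 + (k : ℝ)) * F k := mul_le_mul_of_nonneg_right h5 (hF0 _)
      _ = _ := by ring
  refine (sum_le_sum h3).trans ?_
  rw [← mul_sum]
  exact mul_le_mul_of_nonneg_left (hF.sum_le_tsum _ fun k _ => mul_nonneg (by positivity) (hF0 _)) hC.le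

theorem summ_exp (h1 : C_BASIC) (h2 : C_LAT) (hR : CMRing R ω) {X : ℝ} (hX : 0 < X) :
    Summable (fun α : R => Real.exp (-(nq α / X))) := by
  refine summ h1 h2 hR (fun x => Real.exp (-(x / X))) (fun _ => (Real.exp_pos _).le) ?_
  have h3 := Real.summable_pow_mul_exp_neg_nat_mul 0 (r := 1 / X) (by positivity)
  have h4 := Real.summable_pow_mul_exp_neg_nat_mul 1 (r := 1 / X) (by positivity)
  refine (h3.add h4).congr fun n => ?_
  rw [pow_zero, pow_one, show -(1 / X) * (n : ℝ) = -((n : ℝ) / X) by ring]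
  ring

end basics

/-- values of characters -/
theorem chi_le {A : Type} [CommRing A] [Finite A] (χ : MulChar A ℂ) (x : A) : ‖χ x‖ ≤ 1 := by
  by_cases hx : IsUnit x
  · obtain ⟨u, rfl⟩ := hx
    have h1 : u ^ Nat.card Aˣ = 1 := pow_card_eq_one'
    have h2 : (χ (u : A)) ^ Nat.card Aˣ = 1 := by
      rw [← map_pow, ← Units.val_pow_eq_pow_val, h1, Units.val_one, map_one]
    exact (Complex.norm_eq_one_of_pow_eq_one h2 Nat.card_pos.ne').le
  · rw [MulChar.map_nonunit χ hx]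
    simp

theorem zp_one {A : Type} [CommRing A] (χ₀ : MulChar A ℂ) (u : Aˣ) (h : χ₀ (u : A) = 1)
    {ψ : MulChar A ℂ} (hψ : ψ ∈ Subgroup.zpowers χ₀) : ψ (u : A) = 1 := by
  have hpow : ∀ n : ℕ, (χ₀ ^ n) (u : A) = 1 := by
    intro n
    rw [MulChar.pow_apply_coe, h, one_pow]
  obtain ⟨k, rfl⟩ := Subgroup.mem_zpowers_iff.1 hψ
  cases k with
  | ofNat n => rw [Int.ofNat_eq_natCast, zpow_natCast]; exact hpow n
  | negSucc n =>
    rw [zpow_negSucc, MulChar.inv_apply_eq_inv', hpow, inv_one]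

section main

variable {R : Subring ℂ} {ω : ℂ}

open scoped Classical in
/-- the coefficients -/
noncomputable def aa (m : R → ℝ) (X : ℝ) (S : Finset R) (γ : R) : ℝ :=
  ∑ β ∈ S.filter (fun β => β ≠ 0 ∧ β ∣ γ), m β * Real.exp (-(nq γ / (nq β * X)))

/-- the weights -/
noncomputable def hh (m : R → ℝ) (g : R → ℂ) (X : ℝ) (S : Finset R) (γ : R) : ℂ :=
  g γ / (nq γ : ℂ) * (aa m X S γ : ℂ)

theorem dvd_nq (h1 : C_BASIC) (hR : CMRing R ω) {β γ : R} (hγ : γ ≠ 0) (h : β ∣ γ) :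
    β ≠ 0 ∧ 1 ≤ nq β ∧ nq β ≤ nq γ := by
  obtain ⟨α, rfl⟩ := h
  have hβ : β ≠ 0 := left_ne_zero_of_mul hγ
  have hα : α ≠ 0 := right_ne_zero_of_mul hγ
  refine ⟨hβ, one_le_nq h1 hR hβ, ?_⟩
  rw [nq_mul]
  exact le_mul_of_one_le_right (nq_nonneg _) (one_le_nq h1 hR hα)

/-- the set of the divisors of small norm -/
theorem filt_eq (h1 : C_BASIC) (hR : CMRing R ω) {B : ℝ} {S : Finset R}
    (hS : ∀ β, β ∈ S ↔ nq β ≤ B) {γ : R} (hγ : γ ≠ 0) (hγB : nq γ ≤ B)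
    (hfin : {β : R | β ∣ γ}.Finite) :
    (open scoped Classical in S.filter (fun β => β ≠ 0 ∧ β ∣ γ)) = hfin.toFinset := by
  classical
  ext β
  rw [mem_filter, Set.Finite.mem_toFinset, Set.mem_ofPred_eq, hS]
  constructor
  · exact fun h => h.2.2
  · intro h
    obtain ⟨h2, _, h4⟩ := dvd_nq h1 hR hγ h
    exact ⟨h4.trans hγB, h2, h⟩

theorem card_filt {S : Finset R} {γ : R} (hfin : {β : R | β ∣ γ}.Finite) :
    ((open scoped Classical in S.filter (fun β => β ≠ 0 ∧ β ∣ γ)).card : ℝ) ≤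
      (Set.ncard {β : R | β ∣ γ} : ℝ) := by
  classical
  have h2 : ((S.filter (fun β => β ≠ 0 ∧ β ∣ γ) : Finset R) : Set R) ⊆ {β : R | β ∣ γ} :=
    fun β hβ => (mem_filter.1 (mem_coe.1 hβ)).2.2
  have h3 := Set.ncard_le_ncard h2 hfin
  rw [Set.ncard_coe_finset] at h3
  exact_mod_cast h3

theorem sum_m {m : R → ℝ} (hm : Mu R m) {γ : R} (hγ : γ ≠ 0) (hfin : {β : R | β ∣ γ}.Finite) :
    ∑ β ∈ hfin.toFinset, m β = (open scoped Classical in if IsUnit γ then (nu R : ℝ) else 0) := by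
  classical
  rw [← finsum_mem_eq_finite_toFinset_sum _ hfin, hm.sum γ hγ]

theorem aa_unit (h1 : C_BASIC) (h3 : C_DIVR) (hR : CMRing R ω) {m : R → ℝ} (hm : Mu R m)
    {B X : ℝ} (hB : 1 ≤ B) {S : Finset R} (hS : ∀ β, β ∈ S ↔ nq β ≤ B) {γ : R}
    (hγ : IsUnit γ) : aa m X S γ = nu R * Real.exp (-(1 / X)) := by
  classical
  have hγ0 : γ ≠ 0 := hγ.ne_zero
  have hγ1 : nq γ = 1 := ((h1 R ω hR).2.1 γ).1 hγ
  obtain ⟨C, _, hd⟩ := h3 R ω hR 1 one_pos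
  have hfin := (hd γ hγ0).1
  unfold aa
  rw [filt_eq h1 hR hS hγ0 (by rw [hγ1]; exact hB) hfin]
  have h4 : ∀ β ∈ hfin.toFinset, m β * Real.exp (-(nq γ / (nq β * X))) =
      m β * Real.exp (-(1 / X)) := by
    intro β hβ
    rw [Set.Finite.mem_toFinset, Set.mem_ofPred_eq] at hβ
    obtain ⟨_, h5, h6⟩ := dvd_nq h1 hR hγ0 hβ
    have h7 : nq β = 1 := le_antisymm (h6.trans hγ1.le) h5
    rw [h7, hγ1, one_mul]
  rw [sum_congr rfl h4, ← sum_mul, sum_m hm hγ0 hfin, if_pos hγ]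

theorem aa_small (h1 : C_BASIC) (hR : CMRing R ω) {m : R → ℝ} (hm : Mu R m)
    {B X : ℝ} (hX : 0 < X) {S : Finset R} (hS : ∀ β, β ∈ S ↔ nq β ≤ B) {γ : R}
    (hγ : γ ≠ 0) (hγu : ¬ IsUnit γ) (hγB : nq γ ≤ B) (hfin : {β : R | β ∣ γ}.Finite) :
    |aa m X S γ| ≤ (Set.ncard {β : R | β ∣ γ} : ℝ) * (nq γ / X) := by
  classical
  unfold aa
  rw [filt_eq h1 hR hS hγ hγB hfin]
  have h4 : ∑ β ∈ hfin.toFinset, m β * Real.exp (-(nq γ / (nq β * X))) =
      ∑ β ∈ hfin.toFinset, m β * (Real.exp (-(nq γ / (nq β * X))) - 1) := by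
    simp only [mul_sub, mul_one, sum_sub_distrib]
    rw [sum_m hm hγ hfin, if_neg hγu, sub_zero]
  rw [h4, Set.ncard_eq_toFinset_card _ hfin, ← nsmul_eq_mul]
  refine (abs_sum_le_sum_abs _ _).trans (sum_le_card_nsmul _ _ _ fun β hβ => ?_)
  rw [Set.Finite.mem_toFinset, Set.mem_ofPred_eq] at hβ
  obtain ⟨_, h5, _⟩ := dvd_nq h1 hR hγ hβ
  have h6 : 0 ≤ nq γ / (nq β * X) := div_nonneg (nq_nonneg _) (mul_nonneg (nq_nonneg _) hX.le)
  have h7 : nq γ / (nq β * X) ≤ nq γ / X :=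
    div_le_div_of_nonneg_left (nq_nonneg _) hX (le_mul_of_one_le_left hX.le h5)
  rw [abs_mul]
  have h8 : |Real.exp (-(nq γ / (nq β * X))) - 1| ≤ nq γ / X := by
    have h9 := Real.add_one_le_exp (-(nq γ / (nq β * X)))
    have h10 : Real.exp (-(nq γ / (nq β * X))) ≤ 1 := Real.exp_le_one_iff.2 (by linarith)
    rw [abs_le]
    constructor <;> linarith
  calc |m β| * |Real.exp (-(nq γ / (nq β * X))) - 1| ≤ 1 * (nq γ / X) :=
        mul_le_mul (hm.le β) h8 (abs_nonneg _) zero_le_one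
    _ = _ := one_mul _

theorem aa_large (h1 : C_BASIC) (hR : CMRing R ω) {m : R → ℝ} (hm : Mu R m)
    {B X : ℝ} (hX : 0 < X) {S : Finset R} (hS : ∀ β, β ∈ S ↔ nq β ≤ B) {γ : R}
    (hγ : γ ≠ 0) (hfin : {β : R | β ∣ γ}.Finite) :
    |aa m X S γ| ≤ (Set.ncard {β : R | β ∣ γ} : ℝ) * Real.exp (-(nq γ / (B * X))) := by
  classical
  unfold aa
  refine (abs_sum_le_sum_abs _ _).trans ?_
  have h4 : ∀ β ∈ S.filter (fun β => β ≠ 0 ∧ β ∣ γ),
      |m β * Real.exp (-(nq γ / (nq β * X)))| ≤ Real.exp (-(nq γ / (B * X))) := by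
    intro β hβ
    rw [mem_filter, hS] at hβ
    obtain ⟨_, h5, _⟩ := dvd_nq h1 hR hγ hβ.2.2
    rw [abs_mul, Real.abs_exp]
    have h6 : Real.exp (-(nq γ / (nq β * X))) ≤ Real.exp (-(nq γ / (B * X))) := by
      apply Real.exp_le_exp.2
      apply neg_le_neg
      exact div_le_div_of_nonneg_left (nq_nonneg _) (by positivity)
        (mul_le_mul_of_nonneg_right hβ.1 hX.le)
    calc |m β| * Real.exp (-(nq γ / (nq β * X))) ≤ 1 * Real.exp (-(nq γ / (B * X))) :=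
          mul_le_mul (hm.le β) h6 (Real.exp_pos _).le zero_le_one
      _ = _ := one_mul _
  refine (sum_le_card_nsmul _ _ _ h4).trans ?_
  rw [nsmul_eq_mul]
  exact mul_le_mul_of_nonneg_right (card_filt hfin) (Real.exp_pos _).le

/-- the product of the mollifier and the smoothed sum -/
theorem prod_hasSum (h1 : C_BASIC) (h2 : C_LAT) (hR : CMRing R ω) {m : R → ℝ} {g : R → ℂ}
    (hg : Gd R g) {X : ℝ} (hX : 0 < X) (S : Finset R) {κ : R} [Finite (Aq R κ)]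
    (χ : MulChar (Aq R κ) ℂ) :
    HasSum (fun γ : R => ev χ γ * hh m g X S γ)
      ((∑ β ∈ S, ev χ β * ((m β : ℂ) * g β) / (nq β : ℂ)) *
        ∑' α : R, ev χ α * g α / (nq α : ℂ) * (Real.exp (-(nq α / X)) : ℂ)) := by
  classical
  have hev : ∀ α β : R, ev χ (α * β) = ev χ α * ev χ β := fun α β => by
    unfold ev; rw [map_mul, map_mul]
  have hsm : Summable (fun α : R => ev χ α * g α / (nq α : ℂ) * (Real.exp (-(nq α / X)) : ℂ)) := by
    refine Summable.of_norm_bounded (summ_exp h1 h2 hR hX) fun α => ?_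
    rw [norm_mul, Complex.norm_real, Real.norm_of_nonneg (Real.exp_pos _).le]
    refine mul_le_of_le_one_left (Real.exp_pos _).le ?_
    by_cases hα : α = 0
    · rw [hα, hg.zero]; simp
    · have h5 := one_le_nq h1 hR hα
      rw [norm_div, norm_mul, Complex.norm_real, Real.norm_of_nonneg (nq_nonneg _),
        div_le_one (by linarith)]
      have h6 : ‖ev χ α‖ ≤ 1 := chi_le χ _
      have h7 := hg.le α
      rw [norm_coe] at h7
      have h8 : (nq α) ^ (1 / 2 : ℝ) ≤ nq α := by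
        conv_rhs => rw [← Real.rpow_one (nq α)]
        exact Real.rpow_le_rpow_of_exponent_le h5 (by norm_num)
      calc ‖ev χ α‖ * ‖g α‖ ≤ 1 * nq α := mul_le_mul h6 (h7.trans h8) (norm_nonneg _) zero_le_one
        _ = _ := one_mul _
  rw [sum_mul]
  have hterm : ∀ γ : R, ev χ γ * hh m g X S γ = ∑ β ∈ S, (if β ≠ 0 ∧ β ∣ γ then
      ev χ γ * (g γ / (nq γ : ℂ)) * ((m β * Real.exp (-(nq γ / (nq β * X))) : ℝ) : ℂ) else 0) := by
    intro γ
    unfold hh aa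
    rw [Complex.ofReal_sum, ← mul_assoc, mul_sum, sum_filter]
  simp only [hterm]
  refine hasSum_sum fun β _ => ?_
  by_cases hβ : β = 0
  · subst hβ
    rw [hg.zero]
    simp only [ne_eq, not_true_eq_false, false_and, if_false, mul_zero, zero_div, zero_mul]
    exact hasSum_zero
  · have hinj : Function.Injective (fun α : R => β * α) := mul_right_injective₀ hβ
    rw [← hinj.hasSum_iff (fun γ hγ => by
      rw [if_neg]
      rintro ⟨_, α, hα⟩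
      exact hγ ⟨α, hα.symm⟩)]
    have h5 := one_le_nq h1 hR hβ
    have h6 := (hsm.hasSum.mul_left (ev χ β * ((m β : ℂ) * g β) / (nq β : ℂ)))
    refine h6.congr_fun fun α => ?_
    show (if β ≠ 0 ∧ β ∣ β * α then _ else (0 : ℂ)) = _
    rw [if_pos ⟨hβ, dvd_mul_right β α⟩, hev, hg.mul, nq_mul]
    have h7 : nq β * nq α / (nq β * X) = nq α / X := by
      field_simp
    rw [h7]
    push_cast
    by_cases hα : α = 0
    · rw [hα, hg.zero]; simp
    · have h8 : (nq α : ℂ) ≠ 0 := by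
        have := one_le_nq h1 hR hα
        exact_mod_cast (by linarith : nq α ≠ 0)
      have h9 : (nq β : ℂ) ≠ 0 := by exact_mod_cast (by linarith : nq β ≠ 0)
      field_simp

theorem mol_smo (h1 : C_BASIC) (h2 : C_LAT) (hR : CMRing R ω) {m : R → ℝ} {g : R → ℂ}
    (hg : Gd R g) {B X : ℝ} (hX : 0 < X) {S : Finset R} (hS : ∀ β, β ∈ S ↔ nq β ≤ B) {κ : R}
    [Finite (Aq R κ)] (χ : MulChar (Aq R κ) ℂ) :
    Summable (fun γ : R => ev χ γ * hh m g X S γ) ∧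
    mol m g B χ * smo g X χ = 1 / (nu R : ℂ) ^ 2 * ∑' γ : R, ev χ γ * hh m g X S γ := by
  classical
  have h := prod_hasSum (m := m) h1 h2 hR hg hX S χ
  refine ⟨h.summable, ?_⟩
  rw [h.tsum_eq]
  have h5 : mol m g B χ = 1 / (nu R : ℂ) * ∑ β ∈ S, ev χ β * ((m β : ℂ) * g β) / (nq β : ℂ) := by
    unfold mol
    congr 1
    rw [tsum_eq_sum (s := S)]
    · refine sum_congr rfl fun β hβ => ?_
      rw [if_pos ((hS β).1 hβ)]
    · intro β hβ
      rw [if_neg (fun h => hβ ((hS β).2 h))]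
  rw [h5]
  unfold smo
  ring

open scoped Classical in
/-- the indicator function of a subgroup -/
noncomputable def ind {κ : R} (H : Subgroup (Aq R κ)ˣ) (γ : R) : ℝ :=
  if ∃ x ∈ H, ((x : (Aq R κ)ˣ) : Aq R κ) = Ideal.Quotient.mk (Ideal.span {κ}) γ then 1 else 0

theorem ind_nonneg {κ : R} (H : Subgroup (Aq R κ)ˣ) (γ : R) : 0 ≤ ind H γ := by
  unfold ind
  split_ifs <;> norm_num

theorem ind_le {κ : R} (H : Subgroup (Aq R κ)ˣ) (γ : R) : ind H γ ≤ 1 := by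
  unfold ind
  split_ifs <;> norm_num

/-- the sum over the units -/
theorem unit_sum (h1 : C_BASIC) (hR : CMRing R ω) (c : ℂ) :
    HasSum (fun γ : R => open scoped Classical in if IsUnit γ then c else 0) ((nu R : ℂ) * c) := by
  classical
  have : Finite Rˣ := (h1 R ω hR).2.2.2.1
  have : Fintype Rˣ := Fintype.ofFinite Rˣ
  have hinj : Function.Injective (Units.val : Rˣ → R) := Units.val_injective
  rw [← hinj.hasSum_iff (fun γ hγ => by
    rw [if_neg]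
    rintro ⟨u, hu⟩
    exact hγ ⟨u, hu⟩)]
  have h3 : (nu R : ℂ) * c = ∑ _u : Rˣ, c := by
    rw [sum_const, card_univ, nsmul_eq_mul]
    unfold nu
    rw [Nat.card_eq_fintype_card]
  rw [h3]
  refine (hasSum_fintype (fun _ : Rˣ => c)).congr_fun fun u => ?_
  exact if_pos u.isUnit

theorem one_le_nu (h1 : C_BASIC) (hR : CMRing R ω) : (1 : ℝ) ≤ nu R := by
  have : Finite Rˣ := (h1 R ω hR).2.2.2.1
  have h : 0 < Nat.card Rˣ := Nat.card_pos
  unfold nu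
  exact_mod_cast h

/-- the main estimate -/
theorem pe (h1 : C_BASIC) (h2 : C_LAT) (h3 : C_DIVR) (hR : CMRing R ω) {m : R → ℝ} (hm : Mu R m)
    {g : R → ℂ} (hg : Gd R g) (η C1 C2 : ℝ) (hη0 : 0 < η) (hη1 : η < 1 / 8) (hC1pos : 0 < C1)
    (hC1 : ∀ γ : R, γ ≠ 0 → (Set.ncard {β : R | β ∣ γ} : ℝ) ≤ C1 * (nq γ) ^ η)
    (hC2pos : 0 < C2)
    (hC2 : ∀ y : ℝ, 0 ≤ y → (Set.ncard {α : R | nq α ≤ y} : ℝ) ≤ C2 * (1 + y))
    {B X : ℝ} (hB : 1 ≤ B) (hX : 0 < X) {S : Finset R} (hS : ∀ β, β ∈ S ↔ nq β ≤ B)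
    {κ : R} (H : Subgroup (Aq R κ)ˣ) (A : R → ℂ) (hA : ∀ γ, ‖A γ‖ ≤ ind H γ)
    (hAu : ∀ u : R, IsUnit u → A u = 1) :
    ‖1 / (nu R : ℂ) ^ 2 * ∑' γ : R, A γ * hh m g X S γ - (Real.exp (-(1 / X)) : ℂ)‖ ≤
      2 * C1 * C2 * (B ^ 2 / X) + C1 * tailR H B (B * X) η := by
  classical
  have hnu := one_le_nu h1 hR
  have hnu0 : (nu R : ℂ) ≠ 0 := by
    have : (nu R : ℝ) ≠ 0 := by linarith
    exact_mod_cast this
  -- splitting
  let p1 : R → ℂ := fun γ => if IsUnit γ then (nu R : ℂ) * (Real.exp (-(1 / X)) : ℂ) else 0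
  let p2 : R → ℂ := fun γ => if IsUnit γ then 0 else A γ * hh m g X S γ
  have hp : ∀ γ, A γ * hh m g X S γ = p1 γ + p2 γ := by
    intro γ
    show _ = (if IsUnit γ then (nu R : ℂ) * (Real.exp (-(1 / X)) : ℂ) else 0) +
      (if IsUnit γ then 0 else A γ * hh m g X S γ)
    split_ifs with h
    · rw [add_zero, hAu γ h, one_mul]
      unfold hh
      rw [aa_unit h1 h3 hR hm hB hS h, hg.unit γ h]
      have : nq γ = 1 := ((h1 R ω hR).2.1 γ).1 h
      rw [this]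
      push_cast
      ring
    · rw [zero_add]
  have hs1 : HasSum p1 ((nu R : ℂ) * ((nu R : ℂ) * (Real.exp (-(1 / X)) : ℂ))) := by
    exact unit_sum h1 hR _
  let f1 : R → ℝ := fun γ => if nq γ ≤ B then C1 * (B / X) else 0
  let tf : R → ℝ := fun γ => if B < Complex.normSq (γ : ℂ) ∧
      ∃ x ∈ H, ((x : (Aq R κ)ˣ) : Aq R κ) = Ideal.Quotient.mk (Ideal.span {κ}) γ
    then (Complex.normSq (γ : ℂ)) ^ (-1 / 2 + η) * Real.exp (-(Complex.normSq (γ : ℂ) / (B * X)))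
    else 0
  have htf0 : ∀ γ, 0 ≤ tf γ := by
    intro γ
    show 0 ≤ ite _ _ _
    split_ifs
    · exact mul_nonneg (Real.rpow_nonneg (Complex.normSq_nonneg _) _) (Real.exp_pos _).le
    · exact le_rfl
  have hf10 : ∀ γ, 0 ≤ f1 γ := by
    intro γ
    show 0 ≤ ite _ _ _
    split_ifs
    · positivity
    · exact le_rfl
  have hstf : Summable tf := by
    refine Summable.of_nonneg_of_le htf0 (fun γ => ?_) (summ_exp h1 h2 hR (show 0 < B * X by positivity))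
    show ite _ _ _ ≤ _
    split_ifs with h
    · have h5 : (1 : ℝ) ≤ Complex.normSq (γ : ℂ) := hB.trans h.1.le
      have h6 : (Complex.normSq (γ : ℂ)) ^ (-1 / 2 + η) ≤ 1 :=
        Real.rpow_le_one_of_one_le_of_nonpos h5 (by linarith)
      exact mul_le_of_le_one_left (Real.exp_pos _).le h6
    · exact (Real.exp_pos _).le
  have hsf1 : HasSum f1 (∑ γ ∈ S, f1 γ) := by
    refine hasSum_sum_of_ne_finset_zero fun γ hγ => ?_
    show ite _ _ _ = _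
    rw [if_neg (fun h => hγ ((hS γ).2 h))]
  have hsum1 : ∑ γ ∈ S, f1 γ ≤ 2 * C1 * C2 * (B ^ 2 / X) := by
    have h5 : ∑ γ ∈ S, f1 γ ≤ S.card • (C1 * (B / X)) := by
      refine sum_le_card_nsmul _ _ _ fun γ hγ => ?_
      show ite _ _ _ ≤ _
      rw [if_pos ((hS γ).1 hγ)]
    have h6 : (S.card : ℝ) ≤ C2 * (1 + B) := by
      have h7 := hC2 B (by linarith)
      have h8 : {α : R | nq α ≤ B} = (S : Set R) := by
        ext α
        rw [mem_coe, hS]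
        rfl
      rw [h8, Set.ncard_coe_finset] at h7
      exact h7
    rw [nsmul_eq_mul] at h5
    calc ∑ γ ∈ S, f1 γ ≤ S.card * (C1 * (B / X)) := h5
      _ ≤ (C2 * (1 + B)) * (C1 * (B / X)) := mul_le_mul_of_nonneg_right h6 (by positivity)
      _ ≤ (C2 * (2 * B)) * (C1 * (B / X)) := by
          apply mul_le_mul_of_nonneg_right _ (by positivity)
          apply mul_le_mul_of_nonneg_left _ hC2pos.le
          linarith
      _ = _ := by ring
  have hbd : ∀ γ, ‖p2 γ‖ ≤ f1 γ + C1 * tf γ := by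
    intro γ
    have hnn : 0 ≤ f1 γ + C1 * tf γ := add_nonneg (hf10 γ) (mul_nonneg hC1pos.le (htf0 γ))
    by_cases hu : IsUnit γ
    · show ‖ite _ _ _‖ ≤ _
      rw [if_pos hu, norm_zero]
      exact hnn
    by_cases hγ : γ = 0
    · have : p2 γ = 0 := by
        show ite _ _ _ = _
        rw [if_neg hu]
        unfold hh
        rw [hγ, hg.zero]
        simp
      rw [this, norm_zero]
      exact hnn
    have hp2 : p2 γ = A γ * hh m g X S γ := if_neg hu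
    rw [hp2, norm_mul]
    have hfin := ((h3 R ω hR 1 one_pos).choose_spec.2 γ hγ).1
    have h5 := one_le_nq h1 hR hγ
    have h5' : 0 < nq γ := by linarith
    have h6 : ‖g γ / (nq γ : ℂ)‖ ≤ (nq γ) ^ (-1 / 2 : ℝ) := by
      rw [norm_div, Complex.norm_real, Real.norm_of_nonneg (nq_nonneg _), div_le_iff₀ h5']
      refine (hg.le γ).trans ?_
      rw [norm_coe]
      conv_rhs => rw [← Real.rpow_one (nq γ)]
      rw [Real.rpow_one, ← Real.rpow_add_one h5'.ne']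
      norm_num
    have h7 : ‖hh m g X S γ‖ ≤ (nq γ) ^ (-1 / 2 : ℝ) * |aa m X S γ| := by
      unfold hh
      rw [norm_mul, Complex.norm_real, Real.norm_eq_abs]
      exact mul_le_mul_of_nonneg_right h6 (abs_nonneg _)
    have hpos : 0 ≤ (nq γ) ^ (-1 / 2 : ℝ) := Real.rpow_nonneg (nq_nonneg _) _
    by_cases hγB : nq γ ≤ B
    · have h8 := aa_small h1 hR hm hX hS hγ hu hγB hfin
      have h9 := hC1 γ hγ
      have h10 : ‖hh m g X S γ‖ ≤ C1 * (B / X) := by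
        refine h7.trans ?_
        calc (nq γ) ^ (-1 / 2 : ℝ) * |aa m X S γ| ≤
              (nq γ) ^ (-1 / 2 : ℝ) * ((C1 * (nq γ) ^ η) * (nq γ / X)) := by
              apply mul_le_mul_of_nonneg_left _ hpos
              refine h8.trans (mul_le_mul_of_nonneg_right h9 (by positivity))
          _ = C1 * ((nq γ) ^ (-1 / 2 : ℝ) * (nq γ) ^ η * nq γ / X) := by ring
          _ = C1 * ((nq γ) ^ (-1 / 2 + η + 1 : ℝ) / X) := by
              rw [Real.rpow_add h5', Real.rpow_add h5', Real.rpow_one]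
          _ ≤ C1 * (nq γ / X) := by
              apply mul_le_mul_of_nonneg_left _ hC1pos.le
              apply div_le_div_of_nonneg_right _ hX.le
              conv_rhs => rw [← Real.rpow_one (nq γ)]
              exact Real.rpow_le_rpow_of_exponent_le h5 (by linarith)
          _ ≤ C1 * (B / X) := by
              apply mul_le_mul_of_nonneg_left _ hC1pos.le
              exact div_le_div_of_nonneg_right hγB hX.le
      have h11 : ‖A γ‖ ≤ 1 := (hA γ).trans (ind_le _ _)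
      have h12 : f1 γ = C1 * (B / X) := if_pos hγB
      have h13 : 0 ≤ C1 * tf γ := mul_nonneg hC1pos.le (htf0 γ)
      calc ‖A γ‖ * ‖hh m g X S γ‖ ≤ 1 * (C1 * (B / X)) :=
            mul_le_mul h11 h10 (norm_nonneg _) zero_le_one
        _ ≤ _ := by rw [h12]; linarith
    · by_cases hH : ∃ x ∈ H, ((x : (Aq R κ)ˣ) : Aq R κ) = Ideal.Quotient.mk (Ideal.span {κ}) γ
      · have h8 := aa_large h1 hR hm hX hS hγ hfin
        have h9 := hC1 γ hγ
        have h10 : ‖hh m g X S γ‖ ≤ C1 * tf γ := by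
          refine h7.trans ?_
          have h11 : tf γ = (nq γ) ^ (-1 / 2 + η) * Real.exp (-(nq γ / (B * X))) :=
            if_pos ⟨not_le.1 hγB, hH⟩
          rw [h11]
          calc (nq γ) ^ (-1 / 2 : ℝ) * |aa m X S γ| ≤
                (nq γ) ^ (-1 / 2 : ℝ) * ((C1 * (nq γ) ^ η) * Real.exp (-(nq γ / (B * X)))) := by
                apply mul_le_mul_of_nonneg_left _ hpos
                refine h8.trans (mul_le_mul_of_nonneg_right h9 (Real.exp_pos _).le)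
            _ = C1 * (((nq γ) ^ (-1 / 2 : ℝ) * (nq γ) ^ η) * Real.exp (-(nq γ / (B * X)))) := by ring
            _ = _ := by rw [Real.rpow_add h5']
        have h11 : ‖A γ‖ ≤ 1 := (hA γ).trans (ind_le _ _)
        calc ‖A γ‖ * ‖hh m g X S γ‖ ≤ 1 * (C1 * tf γ) :=
              mul_le_mul h11 h10 (norm_nonneg _) zero_le_one
          _ ≤ _ := by have := hf10 γ; linarith
      · have h8 : ind H γ = 0 := if_neg hH
        have h9 : ‖A γ‖ = 0 := le_antisymm ((hA γ).trans h8.le) (norm_nonneg _)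
        rw [h9, zero_mul]
        exact hnn
  have hsb : HasSum (fun γ => f1 γ + C1 * tf γ) (∑ γ ∈ S, f1 γ + C1 * ∑' γ, tf γ) :=
    hsf1.add (hstf.hasSum.mul_left C1)
  have hsp2 : Summable p2 := Summable.of_norm_bounded hsb.summable hbd
  have hn2 : ‖∑' γ, p2 γ‖ ≤ ∑ γ ∈ S, f1 γ + C1 * ∑' γ, tf γ := tsum_of_norm_bounded hsb hbd
  have htsum : ∑' γ : R, A γ * hh m g X S γ =
      (nu R : ℂ) * ((nu R : ℂ) * (Real.exp (-(1 / X)) : ℂ)) + ∑' γ, p2 γ := by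
    rw [tsum_congr hp, hs1.summable.tsum_add hsp2, hs1.tsum_eq]
  rw [htsum]
  have e : 1 / (nu R : ℂ) ^ 2 * ((nu R : ℂ) * ((nu R : ℂ) * (Real.exp (-(1 / X)) : ℂ)) +
      ∑' γ, p2 γ) - (Real.exp (-(1 / X)) : ℂ) = 1 / (nu R : ℂ) ^ 2 * ∑' γ, p2 γ := by
    field_simp
    ring
  rw [e, norm_mul, norm_div, norm_pow, norm_one, Complex.norm_natCast]
  have h5 : 1 / (nu R : ℝ) ^ 2 ≤ 1 := by
    rw [div_le_one (by positivity)]
    exact one_le_pow₀ hnu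
  have h6 : ‖∑' γ, p2 γ‖ ≤ 2 * C1 * C2 * (B ^ 2 / X) + C1 * tailR H B (B * X) η := by
    refine hn2.trans (add_le_add hsum1 (le_of_eq ?_))
    rfl
  calc 1 / (nu R : ℝ) ^ 2 * ‖∑' γ, p2 γ‖ ≤ 1 * ‖∑' γ, p2 γ‖ :=
        mul_le_mul_of_nonneg_right h5 (norm_nonneg _)
    _ ≤ _ := by rw [one_mul]; exact h6

/-- the weight for one `r` -/
noncomputable def AAw {κ : R} (χ₀ : MulChar (Aq R κ) ℂ) (t e : ℕ) (γ : R) : ℂ :=
  ev (χ₀ ^ t) γ * (ind (Hf χ₀ e) γ : ℂ)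

theorem AAw_norm {κ : R} [Finite (Aq R κ)] (χ₀ : MulChar (Aq R κ) ℂ) (t e : ℕ) (γ : R) :
    ‖AAw χ₀ t e γ‖ ≤ ind (Hf χ₀ e) γ := by
  unfold AAw
  rw [norm_mul, Complex.norm_real, Real.norm_of_nonneg (ind_nonneg _ _)]
  exact mul_le_of_le_one_left (ind_nonneg _ _) (chi_le _ _)

theorem AAw_unit {κ : R} (χ₀ : MulChar (Aq R κ) ℂ)
    (h : ∀ u : R, IsUnit u → ev χ₀ u = 1) (t e : ℕ) (u : R) (hu : IsUnit u) : AAw χ₀ t e u = 1 := by
  classical
  obtain ⟨v, hv⟩ : ∃ v : (Aq R κ)ˣ, (v : Aq R κ) = Ideal.Quotient.mk (Ideal.span {κ}) u :=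
    hu.map (Ideal.Quotient.mk (Ideal.span {κ}))
  have h0 : χ₀ (v : Aq R κ) = 1 := by rw [hv]; exact h u hu
  unfold AAw
  have h5 : ev (χ₀ ^ t) u = 1 := by
    unfold ev
    rw [← hv, MulChar.pow_apply_coe, h0, one_pow]
  have h6 : ind (Hf χ₀ e) u = 1 := if_pos ⟨v, fun ψ hψ _ => zp_one χ₀ v h0 hψ, hv⟩
  rw [h5, h6]
  simp

theorem sum_cf (h4 : C_ORTH) {κ : R} [Finite (Aq R κ)] (χ₀ : MulChar (Aq R κ) ℂ) (t e : ℕ)
    (hed : e ∣ orderOf χ₀) (γ : R) :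
    ∑ ψ ∈ Cf χ₀ e, ev (χ₀ ^ t * ψ) γ = (e : ℂ) * AAw χ₀ t e γ := by
  classical
  unfold AAw
  have e0 : ∑ ψ ∈ Cf χ₀ e, ev (χ₀ ^ t * ψ) γ = ev (χ₀ ^ t) γ * ∑ ψ ∈ Cf χ₀ e, ev ψ γ := by
    rw [mul_sum]
    rfl
  rw [e0, mul_left_comm]
  congr 1
  unfold ev
  obtain ⟨y, hy⟩ : ∃ y, y = Ideal.Quotient.mk (Ideal.span {κ}) γ := ⟨_, rfl⟩
  unfold ind
  rw [← hy]
  by_cases hu : IsUnit y
  · obtain ⟨u, hu⟩ := hu
    obtain ⟨g1, g2⟩ := (h4 (Aq R κ) χ₀ e hed).2 u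
    by_cases hm : u ∈ Hf χ₀ e
    · rw [if_pos ⟨u, hm, hu⟩, ← hu, g1 hm]
      simp
    · rw [if_neg, ← hu, g2 hm]
      · simp
      · rintro ⟨v, hv, hv'⟩
        have : v = u := Units.ext (hv'.trans hu.symm)
        exact hm (this ▸ hv)
  · rw [if_neg, sum_eq_zero (fun χ _ => MulChar.map_nonunit χ hu)]
    · simp
    · rintro ⟨v, _, hv'⟩
      exact hu ⟨v, hv'⟩

/-- the double sum for one `r` -/
theorem one_r (h1 : C_BASIC) (h2 : C_LAT) (h4 : C_ORTH) (hR : CMRing R ω) {m : R → ℝ} {g : R → ℂ}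
    (hg : Gd R g) {B X : ℝ} (hX : 0 < X) {S : Finset R} (hS : ∀ β, β ∈ S ↔ nq β ≤ B) {κ : R}
    [Finite (Aq R κ)] (χ₀ : MulChar (Aq R κ) ℂ) (t e : ℕ) (hed : e ∣ orderOf χ₀) :
    ∑ ψ ∈ Cf χ₀ e, mol m g B (χ₀ ^ t * ψ) * smo g X (χ₀ ^ t * ψ) =
      (e : ℂ) * (1 / (nu R : ℂ) ^ 2 * ∑' γ : R, AAw χ₀ t e γ * hh m g X S γ) := by
  classical
  have e1 : (e : ℂ) * (1 / (nu R : ℂ) ^ 2 * ∑' γ : R, AAw χ₀ t e γ * hh m g X S γ) =
      1 / (nu R : ℂ) ^ 2 * ∑' γ : R, (e : ℂ) * (AAw χ₀ t e γ * hh m g X S γ) := by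
    rw [tsum_mul_left]; ring
  rw [e1, sum_congr rfl (fun ψ _ => (mol_smo h1 h2 hR hg hX hS (χ₀ ^ t * ψ)).2), ← mul_sum,
    ← Summable.tsum_finsetSum (fun ψ _ => (mol_smo h1 h2 hR hg hX hS (χ₀ ^ t * ψ)).1)]
  congr 1
  refine tsum_congr fun γ => ?_
  rw [← sum_mul, sum_cf h4 χ₀ t e hed]
  ring

end main

theorem c_mainp (h0 : Pool.Agent.W192.CY.S_DIV) (h1 : C_BASIC) (h2 : C_LAT) (h3 : C_DIVR)
    (h4 : C_ORTH) (h5 : C_MOB) (h6 : C_TAIL) : C_MAINP := by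
  classical
  intro R ω hR m g hm hg ε hε hε4
  obtain ⟨η, δ0, C0, hη, hη8, hδ0, hC0, htail⟩ := h6 R ω hR ε hε hε4
  obtain ⟨C1, hC1pos, hdiv⟩ := h3 R ω hR η hη
  obtain ⟨C2, hC2pos, hlat⟩ := lat h2 hR
  obtain ⟨ρ, hρ, hρ1, hρ2⟩ : ∃ ρ : ℝ, 0 < ρ ∧ 2 * ρ ≤ δ0 ∧ 2 * ρ ≤ 1 / 2 := by
    refine ⟨min δ0 (1 / 2) / 2, by positivity, ?_, ?_⟩
    · linarith [min_le_left δ0 (1 / 2)]
    · linarith [min_le_right δ0 (1 / 2)]
  obtain ⟨Cb, hCb, hdivb, _⟩ := h0 ρ hρ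
  refine ⟨ρ, Cb * (2 * C1 * C2 + C1 * C0) + 1, 1, hρ, by positivity, ?_⟩
  intro κ _ hκ hN1 χ₀ hχ₀ hdq M hM1 hMd
  obtain ⟨N, hN⟩ : ∃ N : ℝ, N = Complex.normSq (κ : ℂ) := ⟨_, rfl⟩
  rw [← hN] at hN1 hdq ⊢
  have hNpos : 0 < N := by linarith
  obtain ⟨t, hcardM, hmob⟩ := h5 (Aq R κ) χ₀ M hM1 hMd
  obtain ⟨d, hddef⟩ : ∃ d : ℕ, d = orderOf χ₀ := ⟨_, rfl⟩
  obtain ⟨X, hXdef⟩ : ∃ X : ℝ, X = N ^ (2 / 3 : ℝ) := ⟨_, rfl⟩
  have hX : 0 < X := by rw [hXdef]; positivity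
  obtain ⟨B, hBdef⟩ : ∃ B : ℝ, B = N ^ (ε / 2) := ⟨_, rfl⟩
  have hB : 1 ≤ B := by rw [hBdef]; exact Real.one_le_rpow hN1 (by positivity)
  obtain ⟨S, hS⟩ : ∃ S : Finset R, ∀ β, β ∈ S ↔ nq β ≤ B := by
    refine ⟨(hlat B (by linarith)).1.toFinset, fun β => ?_⟩
    rw [Set.Finite.mem_toFinset]
    rfl
  have hNcard : (Nat.card (Aq R κ) : ℝ) = N := by
    rw [hN]; exact ((h1 R ω hR).2.2.2.2 κ hκ).2
  have hcard : ∀ e : ℕ, e ∣ orderOf χ₀ → ((e : ℝ) * Nat.card (Hf χ₀ e)) ≤ N := fun e he => by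
    have g1 := (h4 (Aq R κ) χ₀ e he).1
    have g2 : Nat.card (Aq R κ)ˣ ≤ Nat.card (Aq R κ) :=
      Nat.card_le_card_of_injective Units.val Units.val_injective
    rw [← g1] at g2
    rw [← hNcard]
    exact_mod_cast g2
  have hordpos : 0 < orderOf χ₀ := by
    rw [orderOf_pos_iff, isOfFinOrder_iff_pow_eq_one]
    refine ⟨Nat.card (Aq R κ)ˣ, Nat.card_pos, ?_⟩
    refine MulChar.ext fun u => ?_
    rw [MulChar.pow_apply_coe, ← map_pow, ← Units.val_pow_eq_pow_val, pow_card_eq_one',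
      Units.val_one, map_one, MulChar.one_apply_coe]
  have hdpos : 0 < d := by rw [hddef]; exact hordpos
  have hdR : (0 : ℝ) < d := by exact_mod_cast hdpos
  have hdle : (d : ℝ) ≤ N := by
    have g1 := hcard (orderOf χ₀) dvd_rfl
    have g2 : 0 < Nat.card (Hf χ₀ (orderOf χ₀)) := Nat.card_pos
    have g3 : (1 : ℝ) ≤ Nat.card (Hf χ₀ (orderOf χ₀)) := by exact_mod_cast g2
    rw [← hddef] at g1 g3
    exact (le_mul_of_one_le_right hdR.le g3).trans g1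
  -- the divisors
  obtain ⟨RR, hRdef⟩ : ∃ RR : Finset ℕ, RR = (orderOf χ₀).divisors.filter
    (fun r => Nat.Coprime r M) := ⟨_, rfl⟩
  have hRd : ∀ r ∈ RR, (orderOf χ₀ / (r * M)) ∣ orderOf χ₀ := by
    intro r hr
    rw [hRdef, mem_filter, Nat.mem_divisors] at hr
    exact Nat.div_dvd_of_dvd (Nat.Coprime.mul_dvd_of_dvd_of_dvd hr.2 hr.1.1 hMd)
  have hRcard : RR.card ≤ (orderOf χ₀).divisors.card := by
    rw [hRdef]
    exact card_filter_le _ _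
  have hEm : ((Ef χ₀ M).card : ℂ) = ∑ r ∈ RR, ((ArithmeticFunction.moebius r : ℤ) : ℂ) *
      ((orderOf χ₀ / (r * M) : ℕ) : ℂ) := by
    have g1 := hmob (fun _ => 1)
    rw [← hRdef] at g1
    simp only [sum_const, nsmul_eq_mul, mul_one] at g1
    rw [g1]
    refine sum_congr rfl fun r hr => ?_
    congr 1
    have g2 := ((h4 (Aq R κ) χ₀ _ (hRd r hr)).2 1).1 (one_mem _)
    simpa using g2
  have hEmle : ((Ef χ₀ M).card : ℝ) ≤ d := by
    have g1 : 0 < Nat.totient M := Nat.totient_pos.2 hM1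
    have g2 : (Ef χ₀ M).card ≤ (Ef χ₀ M).card * Nat.totient M := Nat.le_mul_of_pos_right _ g1
    have g3 := Nat.totient_le (orderOf χ₀)
    rw [hcardM] at g2
    rw [← hddef] at g2 g3
    exact_mod_cast g2.trans g3
  obtain ⟨P, hP⟩ : ∃ P : ℕ → ℂ, ∀ r, P r = 1 / (nu R : ℂ) ^ 2 *
      ∑' γ : R, AAw χ₀ (t r) (orderOf χ₀ / (r * M)) γ * hh m g X S γ := ⟨_, fun _ => rfl⟩
  have hsum : ∑ χ ∈ Ef χ₀ M, mol m g B χ * smo g X χ =
      ∑ r ∈ RR, ((ArithmeticFunction.moebius r : ℤ) : ℂ) *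
        (((orderOf χ₀ / (r * M) : ℕ) : ℂ) * P r) := by
    rw [hmob (fun χ => mol m g B χ * smo g X χ), ← hRdef]
    refine sum_congr rfl fun r hr => ?_
    rw [one_r h1 h2 h4 hR hg hX hS χ₀ (t r) _ (hRd r hr), hP]
  rw [← hXdef, ← hBdef, hsum, hEm]
  have hT : ∀ r ∈ RR, ((orderOf χ₀ / (r * M) : ℕ) : ℝ) * ‖P r - (Real.exp (-(1 / X)) : ℂ)‖ ≤
      2 * C1 * C2 * (d * (B ^ 2 / X)) + C1 * (C0 * d * N ^ (-δ0)) := by
    intro r hr
    obtain ⟨e, he⟩ : ∃ e : ℕ, e = orderOf χ₀ / (r * M) := ⟨_, rfl⟩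
    have hed := hRd r hr
    rw [hP, ← he]
    rw [← he] at hed
    have hele : (e : ℝ) ≤ d := by
      rw [hddef]
      exact_mod_cast Nat.le_of_dvd hordpos hed
    have b1 := pe h1 h2 h3 hR hm hg η C1 C2 hη hη8 hC1pos (fun γ hγ => (hdiv γ hγ).2) hC2pos
      (fun y hy => (hlat y hy).2) hB hX hS (Hf χ₀ e) (AAw χ₀ (t r) e) (AAw_norm χ₀ (t r) e)
      (AAw_unit χ₀ hχ₀ (t r) e)
    have b2 := htail κ hκ d e (hddef ▸ hed) (hN ▸ hdle) (by rw [← hN, hddef]; exact hdq)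
      (Hf χ₀ e) (by rw [← hN]; exact hcard e hed)
    rw [← hN] at b2
    have b3 : B * X = N ^ (2 / 3 + ε / 2) := by
      rw [hBdef, hXdef, ← Real.rpow_add hNpos]
      congr 1
      ring
    rw [b3] at b1
    rw [← hBdef] at b2
    calc (e : ℝ) * ‖1 / (nu R : ℂ) ^ 2 * ∑' γ : R, AAw χ₀ (t r) e γ * hh m g X S γ -
          (Real.exp (-(1 / X)) : ℂ)‖ ≤
          e * (2 * C1 * C2 * (B ^ 2 / X) + C1 * tailR (Hf χ₀ e) B (N ^ (2 / 3 + ε / 2)) η) := by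
          gcongr
      _ = 2 * C1 * C2 * (e * (B ^ 2 / X)) +
            C1 * (e * tailR (Hf χ₀ e) B (N ^ (2 / 3 + ε / 2)) η) := by ring
      _ ≤ 2 * C1 * C2 * (d * (B ^ 2 / X)) + C1 * (C0 * d * N ^ (-δ0)) := by gcongr
  have hsplit : ∑ r ∈ RR, ((ArithmeticFunction.moebius r : ℤ) : ℂ) *
        (((orderOf χ₀ / (r * M) : ℕ) : ℂ) * P r) -
      ∑ r ∈ RR, ((ArithmeticFunction.moebius r : ℤ) : ℂ) * ((orderOf χ₀ / (r * M) : ℕ) : ℂ) =
      ∑ r ∈ RR, ((ArithmeticFunction.moebius r : ℤ) : ℂ) *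
        (((orderOf χ₀ / (r * M) : ℕ) : ℂ) * (P r - (Real.exp (-(1 / X)) : ℂ))) +
      ((Real.exp (-(1 / X)) : ℂ) - 1) * ((Ef χ₀ M).card : ℂ) := by
    rw [hEm, mul_sum, ← sum_add_distrib, ← sum_sub_distrib]
    refine sum_congr rfl (fun e _ => ?_)
    ring
  rw [hsplit]
  have hE1 : ‖(Real.exp (-(1 / X)) : ℂ) - 1‖ ≤ 1 / X := by
    have g2 : (Real.exp (-(1 / X)) : ℂ) - 1 = ((Real.exp (-(1 / X)) - 1 : ℝ) : ℂ) := by push_cast; rfl
    rw [g2, Complex.norm_real, Real.norm_eq_abs]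
    have h9 := Real.add_one_le_exp (-(1 / X))
    have h10 : Real.exp (-(1 / X)) ≤ 1 := Real.exp_le_one_iff.2 (by
      have : 0 < 1 / X := by positivity
      linarith)
    have h11 : 0 < 1 / X := by positivity
    rw [abs_le]
    constructor <;> linarith
  have hτ : (RR.card : ℝ) ≤ Cb * N ^ ρ := by
    have g0 : (RR.card : ℝ) ≤ (d.divisors.card : ℝ) := by
      rw [hddef]
      exact_mod_cast hRcard
    refine g0.trans ((hdivb d hdpos).trans ?_)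
    gcongr
  have hmain : ‖∑ r ∈ RR, ((ArithmeticFunction.moebius r : ℤ) : ℂ) *
        (((orderOf χ₀ / (r * M) : ℕ) : ℂ) * (P r - (Real.exp (-(1 / X)) : ℂ)))‖ ≤
      RR.card * (2 * C1 * C2 * (d * (B ^ 2 / X)) + C1 * (C0 * d * N ^ (-δ0))) := by
    refine (norm_sum_le _ _).trans ?_
    rw [← nsmul_eq_mul]
    refine sum_le_card_nsmul _ _ _ fun r hr => ?_
    rw [norm_mul, norm_mul, Complex.norm_natCast, Complex.norm_intCast]
    have g1 : |((ArithmeticFunction.moebius r : ℤ) : ℝ)| ≤ 1 := by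
      have := ArithmeticFunction.abs_moebius_le_one (n := r)
      exact_mod_cast this
    refine (mul_le_of_le_one_left ?_ g1).trans (hT r hr)
    positivity
  -- numerical estimates
  have hn1 : B ^ 2 / X ≤ N ^ (-(2 * ρ)) := by
    rw [hBdef, hXdef, ← Real.rpow_natCast, ← Real.rpow_mul hNpos.le, ← Real.rpow_sub hNpos]
    apply Real.rpow_le_rpow_of_exponent_le hN1
    push_cast
    linarith
  have hn2 : N ^ (-δ0) ≤ N ^ (-(2 * ρ)) :=
    Real.rpow_le_rpow_of_exponent_le hN1 (by linarith)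
  have hn3 : 1 / X ≤ N ^ (-ρ) := by
    rw [hXdef, one_div, ← Real.rpow_neg hNpos.le]
    exact Real.rpow_le_rpow_of_exponent_le hN1 (by linarith)
  have hn4 : N ^ ρ * N ^ (-(2 * ρ)) = N ^ (-ρ) := by
    rw [← Real.rpow_add hNpos]
    congr 1
    ring
  have hQ : 0 < N ^ (-ρ) := by positivity
  rw [← hddef]
  rw [← hddef] at hmain
  calc _ ≤ RR.card * (2 * C1 * C2 * (d * (B ^ 2 / X)) + C1 * (C0 * d * N ^ (-δ0))) +
        1 / X * ((Ef χ₀ M).card : ℝ) := by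
        refine (norm_add_le _ _).trans (add_le_add hmain ?_)
        rw [norm_mul, Complex.norm_natCast]
        gcongr
    _ ≤ (Cb * N ^ ρ) * (2 * C1 * C2 * (d * N ^ (-(2 * ρ))) + C1 * (C0 * d * N ^ (-(2 * ρ)))) +
        N ^ (-ρ) * d := by gcongr
    _ = Cb * (2 * C1 * C2 + C1 * C0) * d * (N ^ ρ * N ^ (-(2 * ρ))) + N ^ (-ρ) * d := by ring
    _ = (Cb * (2 * C1 * C2 + C1 * C0) + 1) * d * N ^ (-ρ) := by rw [hn4]; ring

end Pool.Agent.W588.CM
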